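import Mathlib

/-!
# Deterministic branching programs and directed reachability on subgraphs of a host
-/

set_option autoImplicit false

namespace Pool.Agent.H181R5.NLH

/-- A deterministic branching program with set of states `Q` and input bits indexed by `X`: in the
state `q` it reads the bit `var q` and goes to the state `next q` of that bit. -/
structure BP (X Q : Type) where
  /-- the initial state -/
  start : Q
  /-- the input bit read in a state -/
  var : Q → X
  /-- the next state, as a function of the bit read -/
  next : Q → Bool → Q
  /-- the accepting states -/
  acc : Q → Bool

namespace BP

variable {X Q : Type}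

/-- One step of the computation on the input `x`. -/
def step (P : BP X Q) (x : X → Bool) (q : Q) : Q := P.next q (x (P.var q))

/-- The program accepts `x` if its computation on `x` reaches an accepting state. -/
def Accepts (P : BP X Q) (x : X → Bool) : Prop :=
  ∃ k : ℕ, P.acc ((P.step x)^[k] P.start) = true

end BP

/-- The digraph with arc set `x` has a directed walk from `s` to `t`. -/
def Reach {V : Type} (x : V × V → Bool) (s t : V) : Prop :=
  Relation.ReflTransGen (fun a b => x (a, b) = true) s t

/-- Directed reachability on the subgraphs of the host digraph `H` is decided by deterministic
branching programs with at most `N` states: for all vertices `s`, `t` there is one which accepts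
an arc set `x ⊆ H` if and only if `t` can be reached from `s` in `x` (on arc sets not contained in
`H` it may do anything). -/
def Easy (V : Type) (H : Finset (V × V)) (N : ℕ) : Prop :=
  ∀ s t : V, ∃ (Q : Type) (_ : Fintype Q) (P : BP (V × V) Q), Fintype.card Q ≤ N ∧
    ∀ x : V × V → Bool, (∀ e, x e = true → e ∈ H) → (P.Accepts x ↔ Reach x s t)

end Pool.Agent.H181R5.NLH
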