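import Pool.Agent.H181R5.NLH.Defs
import Pool.Agent.H181R3.VP.Drc

/-!
# Hosts with many pairs of opposite arcs are as hard as the complete digraph
-/

set_option autoImplicit false

namespace Pool.Agent.H181R5.NLH

open Finset Relation

section Red

variable {V : Type} [DecidableEq V] {m : ℕ} (u : Fin m → V)
  (w : {p : Fin m × Fin m // p.1 ≠ p.2} → V)

/-- `e` is one of the two arcs of the path for the pair `p`. -/
def IsOn (e : V × V) (p : {p : Fin m × Fin m // p.1 ≠ p.2}) : Prop :=
  e = (u p.1.1, w p) ∨ e = (w p, u p.1.2)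

open Classical in
/-- The pair to which an arc belongs. -/
noncomputable def live (e : V × V) : Option {p : Fin m × Fin m // p.1 ≠ p.2} :=
  if h : ∃ p, IsOn u w e p then some h.choose else none

omit [DecidableEq V] in
theorem live_spec {e : V × V} {p} (h : live u w e = some p) : IsOn u w e p := by
  unfold live at h
  split_ifs at h with h'
  rw [Option.some.injEq] at h
  rw [← h]
  exact h'.choose_spec

omit [DecidableEq V] in
theorem isOn_unique (hi : Function.Injective (Sum.elim u w)) {e : V × V} {p p'}
    (h : IsOn u w e p) (hs : IsOn u w e p') : p' = p := by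
  have hw : ∀ p p', w p = w p' → p = p' := fun p p' hh => by
    have := @hi (Sum.inr p) (Sum.inr p') hh
    exact Sum.inr_injective this
  have huw : ∀ i p, u i ≠ w p := fun i p hh => by
    have := @hi (Sum.inl i) (Sum.inr p) hh
    exact absurd this (by simp)
  rcases hs with hs | hs <;> rcases h with h | h
  · have h3 := h.symm.trans hs
    rw [Prod.mk.injEq] at h3; exact (hw _ _ h3.2).symm
  · have h3 := h.symm.trans hs
    rw [Prod.mk.injEq] at h3; exact absurd h3.1.symm (huw _ _)
  · have h3 := h.symm.trans hs
    rw [Prod.mk.injEq] at h3; exact absurd h3.1 (huw _ _)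
  · have h3 := h.symm.trans hs
    rw [Prod.mk.injEq] at h3; exact (hw _ _ h3.1).symm

omit [DecidableEq V] in
theorem live_of (hi : Function.Injective (Sum.elim u w)) {e : V × V} {p} (h : IsOn u w e p) :
    live u w e = some p := by
  have hex : ∃ p, IsOn u w e p := ⟨p, h⟩
  unfold live
  rw [dif_pos hex]
  congr 1
  exact isOn_unique u w hi h hex.choose_spec

/-- The arc set on the host. -/
noncomputable def lift (x : Fin m × Fin m → Bool) (e : V × V) : Bool :=
  match live u w e with
  | none => false
  | some p => x p.1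

omit [DecidableEq V] in
theorem lift_iff (hi : Function.Injective (Sum.elim u w)) (x : Fin m × Fin m → Bool) (e : V × V) :
    lift u w x e = true ↔ ∃ p, IsOn u w e p ∧ x p.1 = true := by
  unfold lift
  constructor
  · intro h
    cases hl : live u w e with
    | none => rw [hl] at h; exact absurd h (by simp)
    | some p => rw [hl] at h; exact ⟨p, live_spec u w hl, h⟩
  · rintro ⟨p, hp, hx⟩
    rw [live_of u w hi hp]
    exact hx

omit [DecidableEq V] in
theorem reach_lift (hi : Function.Injective (Sum.elim u w)) (x : Fin m × Fin m → Bool)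
    (s t : Fin m) : Reach (lift u w x) (u s) (u t) ↔ Reach x s t := by
  have huu : ∀ i j, u i = u j → i = j := fun i j hh => by
    have := @hi (Sum.inl i) (Sum.inl j) hh
    exact Sum.inl_injective this
  have hw : ∀ p p', w p = w p' → p = p' := fun p p' hh => by
    have := @hi (Sum.inr p) (Sum.inr p') hh
    exact Sum.inr_injective this
  have huw : ∀ i p, u i ≠ w p := fun i p hh => by
    have := @hi (Sum.inl i) (Sum.inr p) hh
    exact absurd this (by simp)
  constructor
  · intro h
    have key : ∀ b, Reach (lift u w x) (u s) b → (∃ j, b = u j ∧ Reach x s j) ∨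
        (∃ p, b = w p ∧ Reach x s p.1.1 ∧ x p.1 = true) := by
      intro b hb
      induction hb with
      | refl => exact Or.inl ⟨s, rfl, ReflTransGen.refl⟩
      | @tail b c _ hbc ih =>
        obtain ⟨p, hp, hx⟩ := (lift_iff u w hi x (b, c)).1 hbc
        rcases hp with hp | hp
        · rw [Prod.mk.injEq] at hp
          right
          refine ⟨p, hp.2, ?_, hx⟩
          rcases ih with ⟨j, hj, hr⟩ | ⟨p', hp', _⟩
          · rw [hp.1] at hj
            rw [huu _ _ hj]
            exact hr
          · rw [hp.1] at hp'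
            exact absurd hp' (huw _ _)
        · rw [Prod.mk.injEq] at hp
          left
          refine ⟨p.1.2, hp.2, ?_⟩
          rcases ih with ⟨j, hj, _⟩ | ⟨p', hp', hr, _⟩
          · rw [hp.1] at hj
            exact absurd hj.symm (huw _ _)
          · rw [hp.1] at hp'
            rw [← hw _ _ hp'] at hr
            exact hr.tail hx
    rcases key _ h with ⟨j, hj, hr⟩ | ⟨p, hp, _⟩
    · rw [huu _ _ hj]; exact hr
    · exact absurd hp (huw _ _)
  · intro h
    induction h with
    | refl => exact ReflTransGen.refl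
    | @tail b c _ hbc ih =>
      by_cases hne : b = c
      · rw [← hne]; exact ih
      · have h1 : lift u w x (u b, w ⟨(b, c), hne⟩) = true :=
          (lift_iff u w hi x _).2 ⟨⟨(b, c), hne⟩, Or.inl rfl, hbc⟩
        have h2 : lift u w x (w ⟨(b, c), hne⟩, u c) = true :=
          (lift_iff u w hi x _).2 ⟨⟨(b, c), hne⟩, Or.inr rfl, hbc⟩
        exact (ih.tail h1).tail h2

/-- The program on `m` vertices obtained from a program on the host. -/
noncomputable def red {Q : Type} (P : BP (V × V) Q) (d : Fin m × Fin m) :
    BP (Fin m × Fin m) Q where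
  start := P.start
  var := fun q => match live u w (P.var q) with
    | none => d
    | some p => p.1
  next := fun q β => match live u w (P.var q) with
    | none => P.next q false
    | some _ => P.next q β
  acc := P.acc

omit [DecidableEq V] in
theorem red_step {Q : Type} (P : BP (V × V) Q) (d : Fin m × Fin m) (x : Fin m × Fin m → Bool) :
    (red u w P d).step x = P.step (lift u w x) := by
  funext q
  unfold BP.step red lift
  dsimp only
  cases hl : live u w (P.var q) with
  | none => rfl
  | some p => rfl

omit [DecidableEq V] in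
theorem red_accepts {Q : Type} (P : BP (V × V) Q) (d : Fin m × Fin m) (x : Fin m × Fin m → Bool) :
    (red u w P d).Accepts x ↔ P.Accepts (lift u w x) := by
  unfold BP.Accepts
  rw [red_step]
  rfl

end Red

/-- Part 1: hosts with at least `δ n²` ordered pairs of vertices joined in both directions. -/
theorem hard_of_both {n m N : ℕ} {δ : ℝ} (hδ : 0 < δ) (h1 : m ^ 4 ≤ n)
    (h2 : (m : ℝ) + 1 ≤ δ ^ 4 * n) (H : Finset (Fin n × Fin n))
    (hH : δ * (n : ℝ) ^ 2 ≤ ((H.filter fun e => (e.2, e.1) ∈ H).card : ℝ))
    (he : Easy (Fin n) H N) : Easy (Fin m) univ N := by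
  classical
  let R : Fin n → Fin n → Prop := fun a b => (a, b) ∈ H ∧ (b, a) ∈ H
  have hR : δ * (Fintype.card (Fin n) : ℝ) ^ 2 ≤
      ((univ.filter fun p : Fin n × Fin n => R p.1 p.2).card : ℝ) := by
    rw [Fintype.card_fin]
    have : (univ.filter fun p : Fin n × Fin n => R p.1 p.2) =
        H.filter fun e => (e.2, e.1) ∈ H := by
      ext e
      simp [R]
    rw [this]
    exact hH
  obtain ⟨u, w, hi, hp⟩ := H181R3.VP.branch R (fun a b h => ⟨h.2, h.1⟩) δ hδ hR m
    (by rw [Fintype.card_fin]; exact h1) (by rw [Fintype.card_fin]; exact h2)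
  intro s t
  obtain ⟨Q, hQ, P, hcard, hP⟩ := he (u s) (u t)
  refine ⟨Q, hQ, red u w P (s, t), hcard, fun x _ => ?_⟩
  rw [red_accepts, hP (lift u w x), reach_lift u w hi]
  intro e hx
  obtain ⟨p, hon, _⟩ := (lift_iff u w hi x e).1 hx
  rcases hon with h | h
  · rw [h]; exact (hp p).1.1
  · rw [h]; exact (hp p).2.2

/-- Hosts with at least `(1/2 + ε) n²` arcs. -/
theorem hard_of_dense {n m N : ℕ} {ε : ℝ} (hε : 0 < ε) (h1 : m ^ 4 ≤ n)
    (h2 : (m : ℝ) + 1 ≤ (2 * ε) ^ 4 * n) (H : Finset (Fin n × Fin n))
    (hH : (1 / 2 + ε) * (n : ℝ) ^ 2 ≤ (H.card : ℝ))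
    (he : Easy (Fin n) H N) : Easy (Fin m) univ N := by
  classical
  refine hard_of_both (by linarith) h1 h2 H ?_ he
  have hc : (H.filter fun e => (e.2, e.1) ∉ H).card + H.card ≤ n ^ 2 := by
    have e1 : (H.filter fun e => (e.2, e.1) ∉ H).card =
        ((H.filter fun e => (e.2, e.1) ∉ H).image Prod.swap).card :=
      (card_image_of_injective _ Prod.swap_injective).symm
    rw [e1, ← card_union_of_disjoint]
    · refine (card_le_univ _).trans ?_
      rw [Fintype.card_prod, Fintype.card_fin, sq]
    · rw [Finset.disjoint_left]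
      intro e he1 he2
      rw [mem_image] at he1
      obtain ⟨e', he', rfl⟩ := he1
      rw [mem_filter] at he'
      exact he'.2 he2
  have hs := card_filter_add_card_filter_not (s := H) (fun e => (e.2, e.1) ∈ H)
  have hs' : ((H.filter fun e => (e.2, e.1) ∈ H).card : ℝ) +
      ((H.filter fun e => (e.2, e.1) ∉ H).card : ℝ) = (H.card : ℝ) := by exact_mod_cast hs
  have hc' : ((H.filter fun e => (e.2, e.1) ∉ H).card : ℝ) + (H.card : ℝ) ≤ (n : ℝ) ^ 2 := by
    exact_mod_cast hc
  nlinarith

end Pool.Agent.H181R5.NLH
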