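import Pool.Agent.H181R5.NLH.Or

/-!
# Layered hosts
-/

set_option autoImplicit false

namespace Pool.Agent.H181R5.NLH

open Finset Relation

/-- Lazy walks with exactly `k` steps. -/
def LW {V : Type} (x : V × V → Bool) : ℕ → V → V → Prop
  | 0, s, t => s = t
  | k + 1, s, t => ∃ b, LW x k s b ∧ (b = t ∨ x (b, t) = true)

variable {V : Type} {x : V × V → Bool}

theorem LW.succ {k : ℕ} {s t : V} (h : LW x k s t) : LW x (k + 1) s t := ⟨t, h, Or.inl rfl⟩

theorem LW.mono {k l : ℕ} {s t : V} (h : LW x k s t) (hkl : k ≤ l) : LW x l s t := by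
  induction hkl with
  | refl => exact h
  | step _ ih => exact ih.succ

theorem LW.reach : ∀ {k : ℕ} {s t : V}, LW x k s t → Reach x s t
  | 0, s, t, h => by
    have h' : s = t := h
    rw [h']
    exact ReflTransGen.refl
  | k + 1, s, t, h => by
    obtain ⟨b, hb, h' | h'⟩ := h
    · rw [← h']; exact hb.reach
    · exact ReflTransGen.tail hb.reach h'

theorem lw_of_reach (lay : V → ℕ) (hlay : ∀ a b, x (a, b) = true → lay a < lay b ∨ a = b)
    {s t : V} (h : Reach x s t) : LW x (lay t) s t := by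
  induction h with
  | refl => exact LW.mono (k := 0) rfl (Nat.zero_le _)
  | @tail b c _ hbc ih =>
    rcases hlay b c hbc with h1 | h1
    · exact LW.mono (k := lay b + 1) ⟨b, ih, Or.inr hbc⟩ h1
    · rw [← h1]; exact ih

theorem lw_iff : ∀ (k : ℕ) (s t : V), LW x k s t ↔
    ∃ a : ℕ → V, a 0 = s ∧ a k = t ∧ ∀ j, j < k → a j = a (j + 1) ∨ x (a j, a (j + 1)) = true
  | 0, s, t => by
    constructor
    · intro h
      exact ⟨fun _ => s, rfl, h, fun j hj => absurd hj (Nat.not_lt_zero j)⟩
    · rintro ⟨a, h1, h2, _⟩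
      exact h1.symm.trans h2
  | k + 1, s, t => by
    constructor
    · rintro ⟨b, hb, hbt⟩
      obtain ⟨a, h1, h2, h3⟩ := (lw_iff k s b).1 hb
      refine ⟨fun j => if j ≤ k then a j else t, ?_, ?_, ?_⟩
      · simp only [Nat.zero_le, if_true]; exact h1
      · have : ¬ (k + 1 ≤ k) := by omega
        simp only [this, if_false]
      · intro j hj
        have hjk : j ≤ k := by omega
        rcases Nat.eq_or_lt_of_le hjk with h4 | h4
        · have h5 : ¬ (j + 1 ≤ k) := by omega
          simp only [hjk, h5, if_true, if_false]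
          rw [h4, h2]
          exact hbt
        · have h5 : j + 1 ≤ k := h4
          simp only [hjk, h5, if_true]
          exact h3 j h4
    · rintro ⟨a, h1, h2, h3⟩
      refine ⟨a k, (lw_iff k s (a k)).2 ⟨a, h1, rfl, fun j hj => h3 j (by omega)⟩, ?_⟩
      rw [← h2]
      exact h3 k (Nat.lt_succ_self k)

/-- The host: arcs from lower to higher residues modulo `k`, and loops. -/
def host (n k : ℕ) : Finset (Fin n × Fin n) :=
  univ.filter fun e => (e.1 : ℕ) % k < (e.2 : ℕ) % k ∨ e.1 = e.2

theorem easy_host {n k : ℕ} (hk : 0 < k) : Easy (Fin n) (host n k) (2 + n ^ (k + 1) * (k + 1)) := by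
  classical
  intro s t
  have hn : 0 < n := Nat.lt_of_le_of_lt (Nat.zero_le _) s.2
  have hT : 0 < n ^ (k + 1) := pow_pos hn _
  let e : (Fin (k + 1) → Fin n) ≃ Fin (n ^ (k + 1)) := Fintype.equivFinOfCardEq (by simp)
  let term : ℕ → ℕ → Bool ⊕ (Fin n × Fin n) := fun τ j =>
    if h : τ < n ^ (k + 1) then
      (if hj : j < k then
        (if e.symm ⟨τ, h⟩ ⟨j, by omega⟩ = e.symm ⟨τ, h⟩ ⟨j + 1, by omega⟩ then Sum.inl true
          else Sum.inr (e.symm ⟨τ, h⟩ ⟨j, by omega⟩, e.symm ⟨τ, h⟩ ⟨j + 1, by omega⟩))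
      else Sum.inl (decide (e.symm ⟨τ, h⟩ ⟨0, by omega⟩ = s ∧ e.symm ⟨τ, h⟩ ⟨k, by omega⟩ = t)))
    else Sum.inl false
  refine ⟨Bool ⊕ (Fin (n ^ (k + 1)) × Fin (k + 1)), inferInstance,
    orProg (Nat.succ_pos k) term hT (s, s), ?_, fun x hx => ?_⟩
  · rw [Fintype.card_sum, Fintype.card_prod, Fintype.card_fin, Fintype.card_fin, Fintype.card_bool]
  · rw [orProg_accepts]
    have hlay : ∀ a b : Fin n, x (a, b) = true → (a : ℕ) % k < (b : ℕ) % k ∨ a = b := by
      intro a b hab
      have := hx _ hab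
      rw [host, mem_filter] at this
      exact this.2
    have h1 : Reach x s t ↔ LW x k s t :=
      ⟨fun h => (lw_of_reach (fun v : Fin n => (v : ℕ) % k) hlay h).mono (Nat.mod_lt _ hk).le,
        fun h => h.reach⟩
    rw [h1, lw_iff]
    constructor
    · rintro ⟨τ, hτ, hs⟩
      refine ⟨fun j => if hj : j < k + 1 then e.symm ⟨τ, hτ⟩ ⟨j, hj⟩ else s, ?_, ?_, ?_⟩
      · have h2 := hs k (Nat.lt_succ_self k)
        simp only [term, dif_pos hτ, lt_irrefl, dif_neg, not_false_eq_true, val,
          decide_eq_true_eq] at h2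
        simp only [Nat.succ_pos, dif_pos]
        exact h2.1
      · have h2 := hs k (Nat.lt_succ_self k)
        simp only [term, dif_pos hτ, lt_irrefl, dif_neg, not_false_eq_true, val,
          decide_eq_true_eq] at h2
        simp only [Nat.lt_succ_self, dif_pos]
        exact h2.2
      · intro j hj
        have h2 := hs j (by omega)
        simp only [term, dif_pos hτ, dif_pos hj] at h2
        simp only [dif_pos (show j < k + 1 by omega), dif_pos (show j + 1 < k + 1 by omega)]
        by_cases h3 : e.symm ⟨τ, hτ⟩ ⟨j, by omega⟩ = e.symm ⟨τ, hτ⟩ ⟨j + 1, by omega⟩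
        · exact Or.inl h3
        · rw [if_neg h3] at h2
          exact Or.inr h2
    · rintro ⟨a, ha0, hak, ha⟩
      have hes : ∀ h : ((e fun i : Fin (k + 1) => a i) : ℕ) < n ^ (k + 1),
          e.symm ⟨(e fun i : Fin (k + 1) => a i : ℕ), h⟩ = fun i : Fin (k + 1) => a i := by
        intro h
        rw [Equiv.symm_apply_eq]
      refine ⟨(e fun i : Fin (k + 1) => a i : ℕ), Fin.is_lt _, fun j hj => ?_⟩
      simp only [term, dif_pos (Fin.is_lt (e fun i : Fin (k + 1) => a i)), hes]
      by_cases hjk : j < k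
      · simp only [dif_pos hjk]
        by_cases h3 : a j = a (j + 1)
        · rw [if_pos h3]; rfl
        · rw [if_neg h3]
          exact (ha j hjk).resolve_left h3
      · simp only [dif_neg hjk, val, decide_eq_true_eq]
        exact ⟨ha0, hak⟩

theorem card_res_le (n k r : ℕ) (hk : 0 < k) :
    (univ.filter fun b : Fin n => (b : ℕ) % k = r).card ≤ n / k + 1 := by
  have h : (univ.filter fun b : Fin n => (b : ℕ) % k = r).card ≤ (range (n / k + 1)).card := by
    refine card_le_card_of_injOn (fun b : Fin n => (b : ℕ) / k) ?_ ?_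
    · intro b _
      rw [mem_coe, mem_range]
      exact Nat.lt_succ_of_le (Nat.div_le_div_right b.2.le)
    · intro b hb c hc hbc
      rw [mem_coe, mem_filter] at hb hc
      have h1 := Nat.div_add_mod (b : ℕ) k
      have h2 := Nat.div_add_mod (c : ℕ) k
      have h3 : (b : ℕ) / k = (c : ℕ) / k := hbc
      apply Fin.ext
      rw [← h1, ← h2, h3, hb.2, hc.2]
  rw [card_range] at h
  exact h

theorem card_host {n k : ℕ} (hk : 0 < k) :
    (1 / 2 - 1 / (2 * (k : ℝ))) * (n : ℝ) ^ 2 ≤ ((host n k).card : ℝ) := by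
  classical
  have hkR : (0 : ℝ) < k := by exact_mod_cast hk
  set A : Finset (Fin n × Fin n) := univ.filter fun e => (e.1 : ℕ) % k < (e.2 : ℕ) % k with hA
  set B : Finset (Fin n × Fin n) := univ.filter fun e => (e.2 : ℕ) % k < (e.1 : ℕ) % k with hB
  set C : Finset (Fin n × Fin n) := univ.filter fun e => (e.1 : ℕ) % k = (e.2 : ℕ) % k with hC
  have hAB : A.card = B.card := by
    have : B = A.image Prod.swap := by
      ext e
      rw [mem_image]
      constructor
      · intro he
        refine ⟨e.swap, ?_, Prod.swap_swap e⟩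
        rw [hB, mem_filter] at he
        rw [hA, mem_filter]
        exact ⟨mem_univ _, he.2⟩
      · rintro ⟨e', he', rfl⟩
        rw [hA, mem_filter] at he'
        rw [hB, mem_filter]
        exact ⟨mem_univ _, he'.2⟩
    rw [this, card_image_of_injective _ Prod.swap_injective]
  have hsum : n ^ 2 ≤ A.card + B.card + C.card := by
    have h1 : (univ : Finset (Fin n × Fin n)) ⊆ A ∪ B ∪ C := by
      intro e _
      rw [mem_union, mem_union, hA, hB, hC, mem_filter, mem_filter, mem_filter]
      rcases lt_trichotomy ((e.1 : ℕ) % k) ((e.2 : ℕ) % k) with h | h | h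
      · exact Or.inl (Or.inl ⟨mem_univ _, h⟩)
      · exact Or.inr ⟨mem_univ _, h⟩
      · exact Or.inl (Or.inr ⟨mem_univ _, h⟩)
    have h2 := card_le_card h1
    rw [card_univ, Fintype.card_prod, Fintype.card_fin] at h2
    have h3 := card_union_le (A ∪ B) C
    have h4 := card_union_le A B
    rw [sq]
    omega
  have hCc : C.card ≤ n * (n / k + 1) := by
    have h1 : C.card = ∑ a : Fin n, (univ.filter fun b : Fin n => (b : ℕ) % k = (a : ℕ) % k).card := by
      rw [hC, card_filter, Fintype.sum_prod_type]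
      refine sum_congr rfl fun a _ => ?_
      rw [card_filter]
      refine sum_congr rfl fun b _ => ?_
      simp only [eq_comm]
    rw [h1]
    refine (sum_le_sum fun a _ => card_res_le n k _ hk).trans ?_
    rw [sum_const, card_univ, Fintype.card_fin, smul_eq_mul]
  have hH : A.card + n ≤ (host n k).card := by
    have h1 : Disjoint A (univ.image fun a : Fin n => (a, a)) := by
      rw [Finset.disjoint_left]
      intro e he he'
      rw [mem_image] at he'
      obtain ⟨a, _, rfl⟩ := he'
      rw [hA, mem_filter] at he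
      exact lt_irrefl _ he.2
    have h2 : A ∪ (univ.image fun a : Fin n => (a, a)) ⊆ host n k := by
      intro e he
      rw [host, mem_filter]
      rw [mem_union, mem_image, hA, mem_filter] at he
      rcases he with he | ⟨a, _, rfl⟩
      · exact ⟨mem_univ _, Or.inl he.2⟩
      · exact ⟨mem_univ _, Or.inr rfl⟩
    have h3 := card_le_card h2
    rw [card_union_of_disjoint h1, card_image_of_injective _ (fun a b h => (Prod.mk.inj h).1),
      card_univ, Fintype.card_fin] at h3
    exact h3
  have e1 : (A.card : ℝ) + n ≤ ((host n k).card : ℝ) := by exact_mod_cast hH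
  have e2 : (n : ℝ) ^ 2 ≤ 2 * A.card + C.card := by
    have : n ^ 2 ≤ 2 * A.card + C.card := by omega
    exact_mod_cast this
  have e3 : (C.card : ℝ) ≤ n * (n / k + 1) := by
    have h1 : (C.card : ℝ) ≤ (n : ℝ) * (((n / k : ℕ) : ℝ) + 1) := by exact_mod_cast hCc
    have h2 : ((n / k : ℕ) : ℝ) ≤ (n : ℝ) / k := Nat.cast_div_le
    refine h1.trans ?_
    have hn : (0 : ℝ) ≤ n := Nat.cast_nonneg _
    nlinarith
  have e4 : (1 / 2 - 1 / (2 * (k : ℝ))) * (n : ℝ) ^ 2 = ((n : ℝ) ^ 2 - (n : ℝ) * (n / k)) / 2 := by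
    field_simp
  rw [e4]
  have hn : (0 : ℝ) ≤ n := Nat.cast_nonneg _
  nlinarith

end Pool.Agent.H181R5.NLH
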