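import Pool.Agent.H181R5.NLH.Defs

/-!
# Disjunctions of conjunctions by deterministic branching programs
-/

set_option autoImplicit false

namespace Pool.Agent.H181R5.NLH

variable {X : Type}

/-- value of a constant or a variable -/
def val (x : X → Bool) : Bool ⊕ X → Bool
  | Sum.inl b => b
  | Sum.inr v => x v

section OrProg

variable {T l : ℕ} (hl : 0 < l) (term : ℕ → ℕ → Bool ⊕ X)

/-- the state in which the term after `τ` starts -/
def nxt (T : ℕ) {l : ℕ} (hl : 0 < l) (τ : ℕ) : Bool ⊕ (Fin T × Fin l) :=
  if h : τ + 1 < T then Sum.inr (⟨τ + 1, h⟩, ⟨0, hl⟩) else Sum.inl false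

/-- the state after a literal that holds -/
def cont {T l : ℕ} (τ : Fin T) (i : ℕ) : Bool ⊕ (Fin T × Fin l) :=
  if h : i + 1 < l then Sum.inr (τ, ⟨i + 1, h⟩) else Sum.inl true

/-- The program that evaluates the terms one after the other. -/
def orProg (hT : 0 < T) (x0 : X) : BP X (Bool ⊕ (Fin T × Fin l)) where
  start := Sum.inr (⟨0, hT⟩, ⟨0, hl⟩)
  var := fun q => match q with
    | Sum.inl _ => x0
    | Sum.inr p => match term p.1 p.2 with
      | Sum.inl _ => x0
      | Sum.inr v => v
  next := fun q β => match q with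
    | Sum.inl b => Sum.inl b
    | Sum.inr p =>
      if (match term p.1 p.2 with
        | Sum.inl b => b
        | Sum.inr _ => β) = true then cont p.1 p.2 else nxt T hl p.1
  acc := fun q => match q with
    | Sum.inl b => b
    | Sum.inr _ => false

/-- acceptance from a state -/
def Acc {Q : Type} (P : BP X Q) (x : X → Bool) (q : Q) : Prop :=
  ∃ k : ℕ, P.acc ((P.step x)^[k] q) = true

theorem acc_step {Q : Type} (P : BP X Q) (x : X → Bool) (q : Q) (h : P.acc q = false) :
    Acc P x q ↔ Acc P x (P.step x q) := by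
  constructor
  · rintro ⟨k, hk⟩
    cases k with
    | zero =>
      rw [Function.iterate_zero, id_eq, h] at hk
      exact absurd hk (by simp)
    | succ k => exact ⟨k, by rw [Function.iterate_succ_apply] at hk; exact hk⟩
  · rintro ⟨k, hk⟩
    exact ⟨k + 1, by rw [Function.iterate_succ_apply]; exact hk⟩

variable (hT : 0 < T) (x0 : X) (x : X → Bool)

theorem acc_true : Acc (orProg hl term hT x0) x (Sum.inl true) := ⟨0, rfl⟩

theorem acc_false : ¬ Acc (orProg hl term hT x0) x (Sum.inl false) := by
  rintro ⟨k, hk⟩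
  have h : ∀ k : ℕ, (((orProg hl term hT x0).step x)^[k] (Sum.inl false)) = Sum.inl false := by
    intro k
    induction k with
    | zero => rfl
    | succ k ih => rw [Function.iterate_succ_apply]; exact ih
  rw [h k] at hk
  exact absurd hk (by simp [orProg])

theorem step_inr (p : Fin T × Fin l) : (orProg hl term hT x0).step x (Sum.inr p) =
    if val x (term p.1 p.2) = true then cont p.1 p.2 else nxt T hl p.1 := by
  unfold BP.step orProg
  dsimp only
  cases h : term p.1 p.2 with
  | inl b => simp [val]
  | inr v => simp [val]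

theorem inner {τ : ℕ} (hτ : τ < T) {E : Prop}
    (hE : Acc (orProg hl term hT x0) x (nxt T hl τ) ↔ E) :
    ∀ (c i : ℕ) (hi : i < l), i + c + 1 = l →
      (Acc (orProg hl term hT x0) x (Sum.inr (⟨τ, hτ⟩, ⟨i, hi⟩)) ↔
        (∀ j, i ≤ j → j < l → val x (term τ j) = true) ∨ E) := by
  intro c
  induction c with
  | zero =>
    intro i hi hc
    rw [acc_step _ _ _ rfl, step_inr]
    dsimp only
    by_cases hv : val x (term τ i) = true
    · rw [if_pos hv, cont, dif_neg (by omega)]
      refine iff_of_true (acc_true hl term hT x0 x) (Or.inl fun j h1 h2 => ?_)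
      have : j = i := by omega
      rw [this]; exact hv
    · rw [if_neg hv, hE]
      constructor
      · exact Or.inr
      · rintro (h | h)
        · exact absurd (h i le_rfl hi) hv
        · exact h
  | succ c ih =>
    intro i hi hc
    rw [acc_step _ _ _ rfl, step_inr]
    dsimp only
    by_cases hv : val x (term τ i) = true
    · rw [if_pos hv, cont, dif_pos (by omega : i + 1 < l), ih (i + 1) (by omega) (by omega)]
      constructor
      · rintro (h | h)
        · left
          intro j h1 h2
          rcases Nat.eq_or_lt_of_le h1 with h3 | h3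
          · rw [← h3]; exact hv
          · exact h j h3 h2
        · exact Or.inr h
      · rintro (h | h)
        · exact Or.inl fun j h1 h2 => h j (by omega) h2
        · exact Or.inr h
    · rw [if_neg hv, hE]
      constructor
      · exact Or.inr
      · rintro (h | h)
        · exact absurd (h i le_rfl hi) hv
        · exact h

theorem outer : ∀ (a τ : ℕ) (hτ : τ < T), τ + a + 1 = T →
    (Acc (orProg hl term hT x0) x (Sum.inr (⟨τ, hτ⟩, ⟨0, hl⟩)) ↔
      ∃ τ', τ ≤ τ' ∧ τ' < T ∧ ∀ j, j < l → val x (term τ' j) = true) := by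
  intro a
  induction a with
  | zero =>
    intro τ hτ ha
    have hE : Acc (orProg hl term hT x0) x (nxt T hl τ) ↔ False := by
      rw [nxt, dif_neg (by omega)]
      exact iff_of_false (acc_false hl term hT x0 x) (fun h => h)
    rw [inner hl term hT x0 x hτ hE (l - 1) 0 hl (by omega)]
    constructor
    · rintro (h | h)
      · exact ⟨τ, le_rfl, hτ, fun j hj => h j (Nat.zero_le _) hj⟩
      · exact h.elim
    · rintro ⟨τ', h1, h2, h3⟩
      have : τ' = τ := by omega
      rw [this] at h3
      exact Or.inl fun j _ hj => h3 j hj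
  | succ a ih =>
    intro τ hτ ha
    have hE : Acc (orProg hl term hT x0) x (nxt T hl τ) ↔
        ∃ τ', τ + 1 ≤ τ' ∧ τ' < T ∧ ∀ j, j < l → val x (term τ' j) = true := by
      rw [nxt, dif_pos (by omega : τ + 1 < T)]
      exact ih (τ + 1) (by omega) (by omega)
    rw [inner hl term hT x0 x hτ hE (l - 1) 0 hl (by omega)]
    constructor
    · rintro (h | ⟨τ', h1, h2, h3⟩)
      · exact ⟨τ, le_rfl, hτ, fun j hj => h j (Nat.zero_le _) hj⟩
      · exact ⟨τ', by omega, h2, h3⟩
    · rintro ⟨τ', h1, h2, h3⟩
      rcases Nat.eq_or_lt_of_le h1 with h4 | h4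
      · rw [← h4] at h3
        exact Or.inl fun j _ hj => h3 j hj
      · exact Or.inr ⟨τ', h4, h2, h3⟩

theorem orProg_accepts : (orProg hl term hT x0).Accepts x ↔
    ∃ τ, τ < T ∧ ∀ j, j < l → val x (term τ j) = true := by
  have h := outer hl term hT x0 x (T - 1) 0 hT (by omega)
  refine Iff.trans h ?_
  constructor
  · rintro ⟨τ, _, h2, h3⟩; exact ⟨τ, h2, h3⟩
  · rintro ⟨τ, h2, h3⟩; exact ⟨τ, Nat.zero_le _, h2, h3⟩

end OrProg

end Pool.Agent.H181R5.NLH
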